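import Pool.Agent.H14.Bal

set_option autoImplicit false

namespace Pool.Agent.Results.MP_6838a0_co.Gap

open Pool.Agent.H14.Bal

theorem result (n : ℕ) (A : Fin n → Fin n → Prop) [DecidableRel A] (hl : ∀ i, ¬ A i i)
    (hb : ∀ i, indeg A i = outdeg A i) (α β : ℝ) (hα : IsLeast (vals A) α)
    (hβ : IsGreatest (vals A) β) : ¬ (0 < β - α ∧ β - α < 1) := by
  rintro ⟨h0, h1⟩
  rcases main A hl hb hα hβ h1.le with h | ⟨h, -⟩ <;> linarith

end Pool.Agent.Results.MP_6838a0_co.Gap
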